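import Mathlib

/-!
# EH, block L2, model part A: `gv z = arcosh ((|z| + |z - 4|)/4)` is a mean of logarithms
-/

set_option autoImplicit false

open Real MeasureTheory Set intervalIntegral

noncomputable section

namespace Pool.Agent.H21.EH

/-- Green function of `[0,4]` -/
def gv (z : ℂ) : ℝ := arcosh ((‖z‖ + ‖z - 4‖) / 4)

theorem one_le_conf (z : ℂ) : 1 ≤ (‖z‖ + ‖z - 4‖) / 4 := by
  have h : ‖(4 : ℂ)‖ ≤ ‖z‖ + ‖z - 4‖ := by
    have := norm_sub_le z (z - 4)
    simpa using this
  have h4 : ‖(4 : ℂ)‖ = 4 := by simp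
  rw [h4] at h
  linarith

theorem gv_nonneg (z : ℂ) : 0 ≤ gv z := arcosh_nonneg (one_le_conf z)

theorem continuous_gv : Continuous gv := by
  have h : Continuous (fun z : ℂ => (‖z‖ + ‖z - 4‖) / 4) := by fun_prop
  exact continuousOn_arcosh.comp_continuous h one_le_conf

/-- `z = w + 1/w + 2` with `|w| ≥ 1` -/
theorem exists_joukowski (z : ℂ) : ∃ w : ℂ, 1 ≤ ‖w‖ ∧ z = w + w⁻¹ + 2 := by
  obtain ⟨d, hd⟩ := IsAlgClosed.exists_pow_nat_eq ((z - 2) ^ 2 - 4) (n := 2) two_pos
  have hprod : ((z - 2 + d) / 2) * ((z - 2 - d) / 2) = 1 := by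
    linear_combination (-1 / 4 : ℂ) * hd
  have h1 : (z - 2 + d) / 2 ≠ 0 := left_ne_zero_of_mul_eq_one hprod
  have h2 : (z - 2 - d) / 2 ≠ 0 := right_ne_zero_of_mul_eq_one hprod
  have hi1 : ((z - 2 + d) / 2)⁻¹ = (z - 2 - d) / 2 := inv_eq_of_mul_eq_one_right hprod
  have hi2 : ((z - 2 - d) / 2)⁻¹ = (z - 2 + d) / 2 := inv_eq_of_mul_eq_one_left hprod
  rcases le_total 1 ‖(z - 2 + d) / 2‖ with h | h
  · refine ⟨_, h, ?_⟩
    rw [hi1]
    ring
  · refine ⟨(z - 2 - d) / 2, ?_, ?_⟩
    · have hn : ‖(z - 2 + d) / 2‖ * ‖(z - 2 - d) / 2‖ = 1 := by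
        rw [← norm_mul, hprod, norm_one]
      have hp : 0 ≤ ‖(z - 2 - d) / 2‖ := norm_nonneg _
      nlinarith
    · rw [hi2]
      ring

theorem normSq_add_one (w : ℂ) : ‖w + 1‖ ^ 2 + ‖w - 1‖ ^ 2 = 2 * ‖w‖ ^ 2 + 2 := by
  rw [← Complex.normSq_eq_norm_sq, ← Complex.normSq_eq_norm_sq, ← Complex.normSq_eq_norm_sq,
    Complex.normSq_apply, Complex.normSq_apply, Complex.normSq_apply]
  simp
  ring

theorem gv_joukowski {w : ℂ} (hw : 1 ≤ ‖w‖) : gv (w + w⁻¹ + 2) = log ‖w‖ := by
  have hw0 : w ≠ 0 := by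
    rintro rfl
    simp at hw
    linarith
  have hn0 : 0 < ‖w‖ := by linarith
  have h1 : w + w⁻¹ + 2 = (w + 1) ^ 2 / w := by
    field_simp
    ring
  have h2 : w + w⁻¹ + 2 - 4 = (w - 1) ^ 2 / w := by
    field_simp
    ring
  have h3 : (‖w + w⁻¹ + 2‖ + ‖w + w⁻¹ + 2 - 4‖) / 4 = cosh (log ‖w‖) := by
    rw [h2, h1, norm_div, norm_div, norm_pow, norm_pow, cosh_log hn0]
    have := normSq_add_one w
    field_simp
    linarith
  unfold gv
  rw [h3, arcosh_cosh (log_nonneg hw)]

theorem log_norm_cos (w : ℂ) (hw : w ≠ 0) (a : ℝ) (h1 : Complex.exp (a * Complex.I) - w ≠ 0)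
    (h2 : Complex.exp (-a * Complex.I) - w ≠ 0) :
    log ‖w + w⁻¹ + 2 - ((2 + 2 * cos a : ℝ) : ℂ)‖ = log ‖Complex.exp (a * Complex.I) - w‖ +
      log ‖Complex.exp (-a * Complex.I) - w‖ - log ‖w‖ := by
  have hc : ((2 + 2 * cos a : ℝ) : ℂ) =
      2 + (Complex.exp (a * Complex.I) + Complex.exp (-a * Complex.I)) := by
    push_cast
    rw [Complex.cos]
    ring
  have he : Complex.exp (a * Complex.I) * Complex.exp (-a * Complex.I) = 1 := by
    rw [← Complex.exp_add]
    simp
  rw [hc]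
  generalize Complex.exp (a * Complex.I) = E at h1 h2 he ⊢
  generalize Complex.exp (-a * Complex.I) = E' at h1 h2 he ⊢
  have h3 : w + w⁻¹ + 2 - (2 + (E + E')) = (E - w) * (E' - w) / w := by
    field_simp
    linear_combination -he
  rw [h3, norm_div, norm_mul, log_div, log_mul]
  · exact norm_ne_zero_iff.2 h1
  · exact norm_ne_zero_iff.2 h2
  · exact mul_ne_zero (norm_ne_zero_iff.2 h1) (norm_ne_zero_iff.2 h2)
  · exact norm_ne_zero_iff.2 hw

/-- the mean of `log |e^{ia} - w|` -/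
theorem mean_log (w : ℂ) (hw : 1 ≤ ‖w‖) :
    ∫ a in (0 : ℝ)..2 * π, log ‖circleMap 0 1 a - w‖ = 2 * π * log ‖w‖ := by
  have h := circleAverage_log_norm_sub_const_eq_posLog (a := w)
  rw [circleAverage, smul_eq_mul, posLog_eq_log (by rwa [abs_of_nonneg (norm_nonneg w)])] at h
  have hpi : (2 * π) ≠ 0 := by positivity
  field_simp at h
  linarith

theorem integrable_log (w : ℂ) :
    IntervalIntegrable (fun a : ℝ => log ‖circleMap 0 1 a - w‖) volume 0 (2 * π) :=
  circleIntegrable_log_norm_sub_const (a := w) (c := 0) 1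

theorem mean_log_neg (w : ℂ) (hw : 1 ≤ ‖w‖) :
    ∫ a in (0 : ℝ)..2 * π, log ‖circleMap 0 1 (-a) - w‖ = 2 * π * log ‖w‖ := by
  rw [← mean_log w hw]
  have hper : Function.Periodic (fun a : ℝ => log ‖circleMap 0 1 a - w‖) (2 * π) := by
    intro x
    simp only [periodic_circleMap 0 1 x]
  have h1 := intervalIntegral.integral_comp_neg (a := 0) (b := 2 * π)
    (fun a : ℝ => log ‖circleMap 0 1 a - w‖)
  rw [h1]
  have h2 := hper.intervalIntegral_add_eq (-(2 * π)) 0
  simpa using h2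

theorem integrable_log_neg (w : ℂ) :
    IntervalIntegrable (fun a : ℝ => log ‖circleMap 0 1 (-a) - w‖) volume 0 (2 * π) := by
  have hper : Function.Periodic (fun a : ℝ => log ‖circleMap 0 1 a - w‖) (2 * π) := by
    intro x
    simp only [periodic_circleMap 0 1 x]
  have h0 := integrable_log w
  have h1 : IntervalIntegrable (fun a : ℝ => log ‖circleMap 0 1 a - w‖) volume (-(2 * π)) 0 := by
    have := hper.intervalIntegrable (by positivity) (t := 0) (by simpa using h0) (-(2 * π)) 0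
    exact this
  have h2 := h1.symm.comp_sub_left 0
  simpa using h2

theorem ae_ne (w : ℂ) : ∀ᵐ a : ℝ, Complex.exp (a * Complex.I) - w ≠ 0 := by
  by_cases h : ∃ b : ℝ, Complex.exp (b * Complex.I) = w
  · obtain ⟨b, hb⟩ := h
    have hc : (Set.range fun k : ℤ => b + k * (2 * π)).Countable := Set.countable_range _
    filter_upwards [hc.ae_notMem volume] with a ha h0
    apply ha
    have h1 : Complex.exp (a * Complex.I) = Complex.exp (b * Complex.I) := by
      rw [hb]
      exact sub_eq_zero.1 h0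
    obtain ⟨k, hk⟩ := Complex.exp_eq_exp_iff_exists_int.1 h1
    refine ⟨k, ?_⟩
    have h2 : ((a : ℂ) - (b + k * (2 * π))) * Complex.I = 0 := by
      linear_combination hk
    have h3 : ((a : ℂ) - (b + k * (2 * π))) = 0 := by
      rcases mul_eq_zero.1 h2 with h | h
      · exact h
      · exact absurd h Complex.I_ne_zero
    have h4 : ((a - (b + k * (2 * π)) : ℝ) : ℂ) = 0 := by
      push_cast
      exact h3
    have h5 : a - (b + k * (2 * π)) = 0 := by exact_mod_cast h4
    show b + k * (2 * π) = a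
    linarith
  · push Not at h
    filter_upwards with a
    exact sub_ne_zero.2 (h a)

/-- the representation of `gv` as a mean -/
theorem gv_eq_mean (z : ℂ) :
    gv z = (2 * π)⁻¹ * ∫ a in (0 : ℝ)..2 * π, log ‖z - ((2 + 2 * cos a : ℝ) : ℂ)‖ := by
  obtain ⟨w, hw, rfl⟩ := exists_joukowski z
  have hw0 : w ≠ 0 := by
    rintro rfl
    simp at hw
    linarith
  rw [gv_joukowski hw]
  have h1 : ∫ a in (0 : ℝ)..2 * π, log ‖w + w⁻¹ + 2 - ((2 + 2 * cos a : ℝ) : ℂ)‖ =
      ∫ a in (0 : ℝ)..2 * π, (log ‖circleMap 0 1 a - w‖ + log ‖circleMap 0 1 (-a) - w‖ -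
        log ‖w‖) := by
    refine intervalIntegral.integral_congr_ae ?_
    have hn : ∀ᵐ a : ℝ, Complex.exp (-a * Complex.I) - w ≠ 0 := by
      have := ae_ne (starRingEnd ℂ w)
      filter_upwards [this] with a ha h0
      apply ha
      have := congrArg (starRingEnd ℂ) h0
      rw [map_sub, ← Complex.exp_conj, map_zero] at this
      simpa using this
    filter_upwards [ae_ne w, hn] with a ha hb _
    rw [log_norm_cos w hw0 a ha hb]
    simp [circleMap]
  rw [h1, intervalIntegral.integral_sub ((integrable_log w).add (integrable_log_neg w))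
    (by simp), intervalIntegral.integral_add (integrable_log w) (integrable_log_neg w),
    mean_log w hw, mean_log_neg w hw, intervalIntegral.integral_const, smul_eq_mul]
  field_simp
  ring

/-- a mean over `[0, 2π]` of a function of `cos a` is twice the integral over `[0, π]` -/
theorem int_cos_half (f : ℝ → ℝ)
    (hf : IntervalIntegrable (fun a => f (cos a)) volume 0 (2 * π)) :
    ∫ a in (0 : ℝ)..2 * π, f (cos a) = 2 * ∫ a in (0 : ℝ)..π, f (cos a) := by
  have hpi := Real.pi_pos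
  have h1 : IntervalIntegrable (fun a => f (cos a)) volume 0 π :=
    hf.mono_set (by
      rw [uIcc_of_le hpi.le, uIcc_of_le (by linarith)]
      exact Icc_subset_Icc le_rfl (by linarith))
  have h2 : IntervalIntegrable (fun a => f (cos a)) volume π (2 * π) :=
    hf.mono_set (by
      rw [uIcc_of_le (by linarith), uIcc_of_le (by linarith)]
      exact Icc_subset_Icc hpi.le le_rfl)
  rw [← intervalIntegral.integral_add_adjacent_intervals h1 h2]
  have h3 : ∫ a in π..2 * π, f (cos a) = ∫ a in (0 : ℝ)..π, f (cos a) := by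
    have h4 := intervalIntegral.integral_comp_sub_left (a := 0) (b := π)
      (fun a => f (cos a)) (2 * π)
    simp only [sub_zero] at h4
    have h5 : 2 * π - π = π := by ring
    rw [h5] at h4
    rw [← h4]
    refine intervalIntegral.integral_congr fun a _ => ?_
    simp only [cos_two_pi_sub]
  rw [h3]
  ring

end Pool.Agent.H21.EH
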