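import Pool.Agent.H21.EH.ModA

/-!
# EH, block L2, model part B: Fubini for the mean of logarithms
-/

set_option autoImplicit false

open Real MeasureTheory Set intervalIntegral

noncomputable section

namespace Pool.Agent.H21.EH

/-- the kernel `log |r e^{iφ} - (2 + 2 cos a)|` -/
def Lk (r : ℝ) (q : ℝ × ℝ) : ℝ := log ‖circleMap 0 r q.1 - ((2 + 2 * cos q.2 : ℝ) : ℂ)‖

theorem measurable_Lk (r : ℝ) : Measurable (Lk r) := by
  unfold Lk
  have h : Continuous (fun q : ℝ × ℝ => circleMap 0 r q.1 - ((2 + 2 * cos q.2 : ℝ) : ℂ)) := by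
    have h1 : Continuous (fun q : ℝ × ℝ => circleMap 0 r q.1) :=
      (continuous_circleMap 0 r).comp continuous_fst
    fun_prop
  exact Real.measurable_log.comp h.norm.measurable

theorem integrable_Lk_fst (r a : ℝ) :
    IntervalIntegrable (fun φ : ℝ => Lk r (φ, a)) volume 0 (2 * π) :=
  circleIntegrable_log_norm_sub_const (a := ((2 + 2 * cos a : ℝ) : ℂ)) (c := 0) r

/-- Jensen: `∫ log |r e^{iφ} - t| = 2π log (max r t)` -/
theorem int_Lk_fst {r : ℝ} (hr : 0 < r) (a : ℝ) :
    ∫ φ in (0 : ℝ)..2 * π, Lk r (φ, a) = 2 * π * log (max r (2 + 2 * cos a)) := by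
  have ht : 0 ≤ 2 + 2 * cos a := by
    have := neg_one_le_cos a
    linarith
  have h := circleAverage_log_norm_sub_const_eq_log_radius_add_posLog
    (a := ((2 + 2 * cos a : ℝ) : ℂ)) (c := 0) hr.ne'
  rw [circleAverage, smul_eq_mul, zero_sub, norm_neg, Complex.norm_real,
    Real.norm_of_nonneg ht] at h
  have hpi : (2 * π) ≠ 0 := by positivity
  have h2 : log r + log⁺ (r⁻¹ * (2 + 2 * cos a)) = log (max r (2 + 2 * cos a)) := by
    rcases le_total (2 + 2 * cos a) r with h3 | h3
    · rw [max_eq_left h3, (posLog_eq_zero_iff _).2, add_zero]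
      rw [abs_of_nonneg (by positivity), inv_mul_le_iff₀ hr, mul_one]
      exact h3
    · have h4 : 1 ≤ r⁻¹ * (2 + 2 * cos a) := by
        rw [le_inv_mul_iff₀ hr, mul_one]
        exact h3
      have h5 : 0 < 2 + 2 * cos a := by linarith
      rw [max_eq_right h3, posLog_eq_log (by rwa [abs_of_nonneg (by positivity)]),
        log_mul (inv_pos.2 hr).ne' h5.ne', log_inv]
      ring
  rw [h2] at h
  unfold Lk
  rw [← h]
  field_simp

theorem abs_log_le {x R : ℝ} (hx : 0 ≤ x) (hR : 1 ≤ R) (h : x ≤ R) :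
    |log x| ≤ 2 * log R - log x := by
  have h0 : 0 ≤ log R := log_nonneg hR
  rcases eq_or_lt_of_le hx with h1 | h1
  · rw [← h1, log_zero, abs_zero]
    linarith
  · have h2 : log x ≤ log R := log_le_log h1 h
    rcases le_total 0 (log x) with h3 | h3
    · rw [abs_of_nonneg h3]
      linarith
    · rw [abs_of_nonpos h3]
      linarith

theorem norm_le (r : ℝ) (hr : 0 < r) (q : ℝ × ℝ) :
    ‖circleMap 0 r q.1 - ((2 + 2 * cos q.2 : ℝ) : ℂ)‖ ≤ r + 4 := by
  refine (norm_sub_le _ _).trans ?_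
  rw [norm_circleMap_zero, abs_of_pos hr, Complex.norm_real]
  have h1 := neg_one_le_cos q.2
  have h2 := cos_le_one q.2
  rw [Real.norm_of_nonneg (by linarith)]
  linarith

theorem integrable_Lk {r : ℝ} (hr : 0 < r) :
    Integrable (Lk r) ((volume.restrict (Ioc 0 (2 * π))).prod
      (volume.restrict (Ioc 0 (2 * π)))) := by
  have hpi : (0 : ℝ) ≤ 2 * π := by positivity
  rw [integrable_prod_iff' (measurable_Lk r).aestronglyMeasurable]
  constructor
  · filter_upwards with a
    exact (intervalIntegrable_iff_integrableOn_Ioc_of_le hpi).1 (integrable_Lk_fst r a)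
  · have hm : AEStronglyMeasurable
        (fun a => ∫ φ, ‖Lk r (φ, a)‖ ∂(volume.restrict (Ioc 0 (2 * π))))
        (volume.restrict (Ioc 0 (2 * π))) := by
      have h1 : Measurable (fun q : ℝ × ℝ => ‖Lk r q‖) := (measurable_Lk r).norm
      exact (h1.stronglyMeasurable.integral_prod_left').aestronglyMeasurable
    refine Integrable.mono' (g := fun _ => 2 * π * (2 * log (r + 4)) - 2 * π * log r)
      (integrable_const _) hm ?_
    filter_upwards with a
    have hi := (intervalIntegrable_iff_integrableOn_Ioc_of_le hpi).1 (integrable_Lk_fst r a)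
    rw [Real.norm_of_nonneg (integral_nonneg fun _ => norm_nonneg _)]
    calc ∫ φ, ‖Lk r (φ, a)‖ ∂(volume.restrict (Ioc 0 (2 * π)))
        ≤ ∫ φ, (2 * log (r + 4) - Lk r (φ, a)) ∂(volume.restrict (Ioc 0 (2 * π))) := by
          refine integral_mono hi.norm ((integrable_const _).sub hi) fun φ => ?_
          exact abs_log_le (norm_nonneg _) (by linarith) (norm_le r hr (φ, a))
      _ = 2 * π * (2 * log (r + 4)) - 2 * π * log (max r (2 + 2 * cos a)) := by
          rw [integral_sub (integrable_const _) hi, ← int_Lk_fst hr a,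
            intervalIntegral.integral_of_le hpi, MeasureTheory.integral_const]
          simp only [measureReal_restrict_apply_univ, Real.volume_real_Ioc_of_le hpi, sub_zero,
            smul_eq_mul]
      _ ≤ _ := by
          have h2 : log r ≤ log (max r (2 + 2 * cos a)) := log_le_log hr (le_max_left _ _)
          have h3 := mul_le_mul_of_nonneg_left h2 hpi
          linarith

/-- integrals of `gv` over a part of the circle -/
theorem int_gv {r : ℝ} (hr : 0 < r) {α β : ℝ} (hα : 0 ≤ α) (hαβ : α ≤ β) (hβ : β ≤ 2 * π) :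
    ∫ φ in α..β, gv (circleMap 0 r φ) =
      (2 * π)⁻¹ * ∫ a in (0 : ℝ)..2 * π, ∫ φ in α..β, Lk r (φ, a) := by
  have hpi : (0 : ℝ) ≤ 2 * π := by positivity
  have h1 : ∫ φ in α..β, gv (circleMap 0 r φ) =
      ∫ φ in α..β, (2 * π)⁻¹ * ∫ a in (0 : ℝ)..2 * π, Lk r (φ, a) := by
    refine intervalIntegral.integral_congr fun φ _ => ?_
    exact gv_eq_mean _
  rw [h1, intervalIntegral.integral_const_mul]
  congr 1
  have hint : Integrable (Lk r) ((volume.restrict (Ioc α β)).prod
      (volume.restrict (Ioc 0 (2 * π)))) := by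
    refine (integrable_Lk hr).mono_measure ?_
    refine Measure.prod_mono (Measure.restrict_mono (Ioc_subset_Ioc hα hβ) le_rfl) le_rfl
  have h2 := integral_integral_swap (f := fun φ a => Lk r (φ, a)) hint
  rw [intervalIntegral.integral_of_le hαβ, intervalIntegral.integral_of_le hpi]
  simp only [intervalIntegral.integral_of_le hαβ, intervalIntegral.integral_of_le hpi]
  exact h2

/-- (M2) -/
theorem int_gv_full {r : ℝ} (hr : 0 < r) :
    ∫ φ in (0 : ℝ)..2 * π, gv (circleMap 0 r φ) =
      ∫ a in (0 : ℝ)..2 * π, log (max r (2 + 2 * cos a)) := by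
  have hpi : (0 : ℝ) ≤ 2 * π := by positivity
  rw [int_gv hr le_rfl hpi le_rfl]
  simp only [int_Lk_fst hr]
  rw [intervalIntegral.integral_const_mul, ← mul_assoc, inv_mul_cancel₀ (by positivity), one_mul]

theorem neg_circleMap (r φ : ℝ) : -(circleMap 0 r φ) = circleMap 0 r (φ + π) := by
  simp [circleMap, add_mul, Complex.exp_add]

/-- (M1) -/
theorem int_gv_arc {r : ℝ} (hr : 0 < r) {ψ : ℝ} (hψ : 0 ≤ ψ) (hψ' : ψ ≤ π) :
    ∫ φ in (-ψ)..ψ, gv (-(circleMap 0 r φ)) =
      (2 * π)⁻¹ * ∫ a in (0 : ℝ)..2 * π,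
        ∫ φ in (-ψ)..ψ, log ‖circleMap 0 r φ + ((2 + 2 * cos a : ℝ) : ℂ)‖ := by
  have h1 : ∫ φ in (-ψ)..ψ, gv (-(circleMap 0 r φ)) =
      ∫ φ in (-ψ + π)..(ψ + π), gv (circleMap 0 r φ) := by
    simp only [neg_circleMap]
    exact intervalIntegral.integral_comp_add_right (fun φ => gv (circleMap 0 r φ)) π
  rw [h1, int_gv hr (by linarith) (by linarith) (by linarith)]
  congr 1
  refine intervalIntegral.integral_congr fun a _ => ?_
  have h2 := intervalIntegral.integral_comp_add_right (a := -ψ) (b := ψ)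
    (fun φ => Lk r (φ, a)) π
  rw [← h2]
  refine intervalIntegral.integral_congr fun φ _ => ?_
  unfold Lk
  simp only
  rw [← neg_circleMap, ← norm_neg]
  congr 2
  ring

end Pool.Agent.H21.EH
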